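import Pool.Agent.Helper13.HE.St

/-! # Project HE: the final inequality (FIN) -/

set_option autoImplicit false

open Module Classical
open scoped LinearAlgebra.Projectivization

namespace Pool.Agent.Helper41.HE

open Pool.Agent.Helper13.HE Pool.Agent.Helper53.PB

universe u v

/-- Terms with `e`: one of them. -/
private theorem finK (k l : ℕ) (q t g e c C : ℝ) (ht0 : 0 ≤ t) (htq : t ≤ q) (heg : e ≤ g)
    (he0 : 0 ≤ e) (hC : 0 ≤ C) (hc : c ≤ t ^ (2 + k) * C) :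
    c * e * q ^ l ≤ q ^ (l + k) * (g * t ^ 2 * C) := by
  have hq0 : 0 ≤ q := ht0.trans htq
  have hg0 : 0 ≤ g := he0.trans heg
  have h1 : c * e ≤ t ^ (2 + k) * C * g := mul_le_mul hc heg he0 (by positivity)
  calc c * e * q ^ l ≤ t ^ (2 + k) * C * g * q ^ l :=
        mul_le_mul_of_nonneg_right h1 (by positivity)
    _ = t ^ k * (t ^ 2 * C * g * q ^ l) := by ring
    _ ≤ q ^ k * (t ^ 2 * C * g * q ^ l) :=
        mul_le_mul_of_nonneg_right (pow_le_pow_left₀ ht0 htq k) (by positivity)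
    _ = q ^ (l + k) * (g * t ^ 2 * C) := by ring

private theorem finE (q N t g e c2 c4 c6 c8 : ℝ) (hq : 16 ≤ q) (hN : N = q - 1)
    (ht0 : 0 ≤ t) (htq : t ≤ q) (heg : e ≤ g) (he0 : 0 ≤ e)
    (b2 : c2 ≤ t ^ 2 / 2) (b4 : c4 ≤ t ^ 4 / 24) (b6 : c6 ≤ t ^ 6 / 720)
    (b8 : c8 ≤ t ^ 8 / 40320) :
    c2 * e * q ^ 7 + c4 * e * q ^ 5 + c6 * e * q ^ 3 + c8 * e * q ≤
      q ^ 7 * N * (g * (6 / 10 * t ^ 2 / q)) := by
  have hg0 : 0 ≤ g := he0.trans heg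
  have hq0 : 0 < q := by linarith
  have t2 := finK 0 7 q t g e c2 (1 / 2) ht0 htq heg he0 (by norm_num) (by linarith)
  have t4 := finK 2 5 q t g e c4 (1 / 24) ht0 htq heg he0 (by norm_num) (by linarith)
  have t6 := finK 4 3 q t g e c6 (1 / 720) ht0 htq heg he0 (by norm_num) (by linarith)
  have t8 := finK 6 1 q t g e c8 (1 / 40320) ht0 htq heg he0 (by norm_num) (by linarith)
  rw [pow_one] at t8
  have h1 : 1 / 2 + 1 / 24 + 1 / 720 + 1 / 40320 ≤ 6 / 10 * (N / q) := by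
    have : 15 / 16 ≤ N / q := by
      rw [le_div_iff₀ hq0]
      linarith
    have h2 : (1 : ℝ) / 2 + 1 / 24 + 1 / 720 + 1 / 40320 ≤ 6 / 10 * (15 / 16) := by norm_num
    linarith
  calc c2 * e * q ^ 7 + c4 * e * q ^ 5 + c6 * e * q ^ 3 + c8 * e * q
      ≤ q ^ 7 * (g * t ^ 2 * (1 / 2)) + q ^ 7 * (g * t ^ 2 * (1 / 24)) +
        q ^ 7 * (g * t ^ 2 * (1 / 720)) + q ^ 7 * (g * t ^ 2 * (1 / 40320)) :=
        add_le_add (add_le_add (add_le_add t2 t4) t6) t8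
    _ = q ^ 7 * (g * t ^ 2) * (1 / 2 + 1 / 24 + 1 / 720 + 1 / 40320) := by ring
    _ ≤ q ^ 7 * (g * t ^ 2) * (6 / 10 * (N / q)) :=
        mul_le_mul_of_nonneg_left h1 (by positivity)
    _ = q ^ 7 * N * (g * (6 / 10 * t ^ 2 / q)) := by ring

private theorem fin3 (q N t g c3 : ℝ) (hN0 : 0 ≤ N) (hNq : N ≤ q)
    (ht0 : 0 ≤ t) (htg : t ≤ g) (b3 : c3 ≤ t ^ 3 / 6) :
    c3 * (2 * N ^ 2 * q ^ 6) ≤ q ^ 7 * N * (g * (t ^ 2 / 3)) := by
  have hq0 : 0 ≤ q := hN0.trans hNq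
  have hg0 : 0 ≤ g := ht0.trans htg
  calc c3 * (2 * N ^ 2 * q ^ 6) ≤ t ^ 3 / 6 * (2 * N ^ 2 * q ^ 6) :=
        mul_le_mul_of_nonneg_right b3 (by positivity)
    _ = t * (N * (t ^ 2 / 3 * N * q ^ 6)) := by ring
    _ ≤ g * (q * (t ^ 2 / 3 * N * q ^ 6)) := by
        apply mul_le_mul htg _ (by positivity) hg0
        exact mul_le_mul_of_nonneg_right hNq (by positivity)
    _ = q ^ 7 * N * (g * (t ^ 2 / 3)) := by ring

private theorem fin5b (q N b t g μ c4' : ℝ) (hq : 0 < q) (hN0 : 0 ≤ N) (hb : 0 ≤ b)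
    (ht0 : 0 ≤ t) (htg : t ≤ g) (hμ : 1 + μ + t ≤ q) (hμ0 : 0 ≤ μ)
    (b4' : c4' ≤ t * b ^ 3 / 24) :
    q ^ 4 * N * (c4' * ((1 + μ) * (q ^ 2 + 1) + t * q ^ 2)) ≤
      q ^ 7 * N * (g * (b ^ 3 / 24 * (1 + 1 / q ^ 2))) := by
  have hg0 : 0 ≤ g := ht0.trans htg
  have h1 : (1 + μ) * (q ^ 2 + 1) + t * q ^ 2 ≤ q * (q ^ 2 + 1) := by
    have e1 : (1 + μ + t) * (q ^ 2 + 1) ≤ q * (q ^ 2 + 1) :=
      mul_le_mul_of_nonneg_right hμ (by positivity)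
    have e2 : (1 + μ + t) * (q ^ 2 + 1) = (1 + μ) * (q ^ 2 + 1) + t * q ^ 2 + t := by ring
    linarith
  have h2 : c4' ≤ g * (b ^ 3 / 24) := by
    calc c4' ≤ t * b ^ 3 / 24 := b4'
      _ = t * (b ^ 3 / 24) := by ring
      _ ≤ g * (b ^ 3 / 24) := mul_le_mul_of_nonneg_right htg (by positivity)
  have h3 : c4' * ((1 + μ) * (q ^ 2 + 1) + t * q ^ 2) ≤ g * (b ^ 3 / 24) * (q * (q ^ 2 + 1)) :=
    mul_le_mul h2 h1 (by positivity) (by positivity)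
  have h4 : q * (q ^ 2 + 1) = q ^ 3 * (1 + 1 / q ^ 2) := by
    field_simp
  calc q ^ 4 * N * (c4' * ((1 + μ) * (q ^ 2 + 1) + t * q ^ 2))
      ≤ q ^ 4 * N * (g * (b ^ 3 / 24) * (q * (q ^ 2 + 1))) :=
        mul_le_mul_of_nonneg_left h3 (by positivity)
    _ = q ^ 7 * N * (g * (b ^ 3 / 24 * (1 + 1 / q ^ 2))) := by
        rw [h4]
        ring

private theorem fin5s (q N y b t g W m2 c5' : ℝ) (hq : 16 ≤ q) (hN0 : 0 ≤ N) (hy : 0 < y)
    (htg : t ≤ g) (ht0 : 0 ≤ t) (hm0 : 0 ≤ m2) (hW0 : 0 ≤ W) (hW : g * y ≤ W)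
    (h5 : c5' = 0 ∨ (1 + m2) * y ≤ 2 * W) (b5' : c5' ≤ b ^ 5 / 120)
    (hN2 : 302 / 100 * (b ^ 5 / 120) ≤ q * y / 8) :
    q ^ 4 * N * (c5' * ((1 + m2) * (q ^ 2 + 1) + t * q ^ 2)) ≤
      q ^ 7 * N * (301 / 302 * (W / 8)) := by
  have hq0 : 0 < q := by linarith
  rcases h5 with h0 | h0
  · rw [h0, zero_mul, mul_zero]
    positivity
  · have h1 : ((1 + m2) * (q ^ 2 + 1) + t * q ^ 2) * y ≤ W * (3 * q ^ 2 + 2) := by
      have e1 : (1 + m2) * y * (q ^ 2 + 1) ≤ 2 * W * (q ^ 2 + 1) :=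
        mul_le_mul_of_nonneg_right h0 (by positivity)
      have e2 : t * y * q ^ 2 ≤ W * q ^ 2 := by
        apply mul_le_mul_of_nonneg_right _ (by positivity)
        exact (mul_le_mul_of_nonneg_right htg hy.le).trans hW
      linarith
    have h2 : c5' ≤ 100 / 302 * (q * y / 8) := by linarith
    have h3 : 3 * q ^ 2 + 2 ≤ 301 / 100 * q ^ 2 := by
      have : (16 : ℝ) ^ 2 ≤ q ^ 2 := pow_le_pow_left₀ (by norm_num) hq 2
      linarith
    have h4 : c5' * ((1 + m2) * (q ^ 2 + 1) + t * q ^ 2) ≤ 301 / 302 * (W / 8) * q ^ 3 := by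
      calc c5' * ((1 + m2) * (q ^ 2 + 1) + t * q ^ 2)
          ≤ 100 / 302 * (q * y / 8) * ((1 + m2) * (q ^ 2 + 1) + t * q ^ 2) :=
            mul_le_mul_of_nonneg_right h2 (by positivity)
        _ = 100 / 302 * (q / 8) * (((1 + m2) * (q ^ 2 + 1) + t * q ^ 2) * y) := by ring
        _ ≤ 100 / 302 * (q / 8) * (W * (3 * q ^ 2 + 2)) :=
            mul_le_mul_of_nonneg_left h1 (by positivity)
        _ ≤ 100 / 302 * (q / 8) * (W * (301 / 100 * q ^ 2)) :=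
            mul_le_mul_of_nonneg_left (mul_le_mul_of_nonneg_left h3 hW0) (by positivity)
        _ = 301 / 302 * (W / 8) * q ^ 3 := by ring
    calc q ^ 4 * N * (c5' * ((1 + m2) * (q ^ 2 + 1) + t * q ^ 2))
        ≤ q ^ 4 * N * (301 / 302 * (W / 8) * q ^ 3) :=
          mul_le_mul_of_nonneg_left h4 (by positivity)
      _ = q ^ 7 * N * (301 / 302 * (W / 8)) := by ring

/-- Terms 7 and 9. -/
private theorem fin79 (k l : ℕ) (q N t g j c C : ℝ) (hq : 0 < q) (hN0 : 0 ≤ N) (ht0 : 0 ≤ t)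
    (htg : t ≤ g) (hj0 : 0 ≤ j) (hjq : 1 + j ≤ q) (hC : 0 ≤ C) (hc : c ≤ t ^ (k + 1) * C)
    (hl : l ≤ 2) :
    c * (q ^ l * N * (q ^ 4 + 1 + j)) ≤
      q ^ 7 * N * (g * (t ^ k * C / q ^ (3 - l) * (1 + 1 / q ^ 3))) := by
  have hg0 : 0 ≤ g := ht0.trans htg
  have hq4 : q ^ 4 + 1 + j ≤ q ^ 4 + q := by linarith
  have h4 : q ^ 4 + q = q ^ 4 * (1 + 1 / q ^ 3) := by
    field_simp
  have h5 : q ^ l = q ^ 3 * (1 / q ^ (3 - l)) := by
    rw [mul_one_div, eq_div_iff (by positivity), ← pow_add]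
    congr 1
    omega
  calc c * (q ^ l * N * (q ^ 4 + 1 + j)) ≤ t ^ (k + 1) * C * (q ^ l * N * (q ^ 4 + q)) := by
        apply mul_le_mul hc _ (by positivity) (by positivity)
        exact mul_le_mul_of_nonneg_left hq4 (by positivity)
    _ = t * (t ^ k * C * (q ^ l * N * (q ^ 4 + q))) := by ring
    _ ≤ g * (t ^ k * C * (q ^ l * N * (q ^ 4 + q))) :=
        mul_le_mul_of_nonneg_right htg (by positivity)
    _ = q ^ 7 * N * (g * (t ^ k * C / q ^ (3 - l) * (1 + 1 / q ^ 3))) := by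
        rw [h4, h5]
        ring

/-- The last comparison. -/
private theorem finLast (q y a b t g W E : ℝ) (hq : 16 ≤ q) (hb : 0 < b)
    (hta : t ≤ a) (ht0 : 0 ≤ t) (hg0 : 0 < g) (hW0 : 0 < W) (hW : g * y ≤ W)
    (hN1 : 101 / 100 * (6 / 10 * a ^ 2 / q + a ^ 2 / 3 + b ^ 3 / 24 + a ^ 6 / (5040 * q) +
      a ^ 8 / (362880 * q ^ 3)) < 7 / 8 * y)
    (hE : E = g * (6 / 10 * t ^ 2 / q) + g * (t ^ 2 / 3) +
      g * (b ^ 3 / 24 * (1 + 1 / q ^ 2)) + 301 / 302 * (W / 8) +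
      g * (t ^ 6 / (5040 * q) * (1 + 1 / q ^ 3)) +
      g * (t ^ 8 / (362880 * q ^ 3) * (1 + 1 / q ^ 3))) :
    (1 + 1 / q ^ 3) * E < W := by
  have hq0 : 0 < q := by linarith
  have hq2 : 1 / q ^ 2 ≤ 1 / 256 := by
    apply one_div_le_one_div_of_le (by norm_num)
    calc (256 : ℝ) = 16 ^ 2 := by norm_num
      _ ≤ q ^ 2 := pow_le_pow_left₀ (by norm_num) hq 2
  have hq3 : 1 / q ^ 3 ≤ 1 / 4096 := by
    apply one_div_le_one_div_of_le (by norm_num)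
    calc (4096 : ℝ) = 16 ^ 3 := by norm_num
      _ ≤ q ^ 3 := pow_le_pow_left₀ (by norm_num) hq 3
  have hq20 : 0 ≤ 1 / q ^ 2 := by positivity
  have hq30 : 0 ≤ 1 / q ^ 3 := by positivity
  obtain ⟨r, hr⟩ : ∃ r, r = 1 + 1 / q ^ 3 := ⟨_, rfl⟩
  obtain ⟨s, hs⟩ : ∃ s, s = 1 + 1 / q ^ 2 := ⟨_, rfl⟩
  have hr0 : 0 ≤ r := by rw [hr]; linarith
  have hr1 : r ≤ 1 + 1 / 4096 := by rw [hr]; linarith
  have hs0 : 0 ≤ s := by rw [hs]; linarith
  have hs1 : s ≤ 1 + 1 / 256 := by rw [hs]; linarith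
  rw [← hr, ← hs] at hE
  rw [← hr]
  have hp1 : r ≤ 101 / 100 := by linarith
  have hp2 : r * s ≤ 101 / 100 :=
    (mul_le_mul hr1 hs1 hs0 (by norm_num)).trans (by norm_num)
  have hp3 : r * r ≤ 101 / 100 :=
    (mul_le_mul hr1 hr1 hr0 (by norm_num)).trans (by norm_num)
  have hp4 : r * (301 / 302) ≤ 1 := by linarith
  have ha0 : 0 ≤ a := ht0.trans hta
  have e1 : r * (6 / 10 * t ^ 2 / q) ≤ 101 / 100 * (6 / 10 * a ^ 2 / q) := by
    apply mul_le_mul hp1 _ (by positivity) (by norm_num)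
    apply div_le_div_of_nonneg_right _ hq0.le
    exact mul_le_mul_of_nonneg_left (pow_le_pow_left₀ ht0 hta 2) (by norm_num)
  have e2 : r * (t ^ 2 / 3) ≤ 101 / 100 * (a ^ 2 / 3) := by
    apply mul_le_mul hp1 _ (by positivity) (by norm_num)
    exact div_le_div_of_nonneg_right (pow_le_pow_left₀ ht0 hta 2) (by norm_num)
  have e3 : r * (b ^ 3 / 24 * s) ≤ 101 / 100 * (b ^ 3 / 24) := by
    calc r * (b ^ 3 / 24 * s) = (r * s) * (b ^ 3 / 24) := by ring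
      _ ≤ 101 / 100 * (b ^ 3 / 24) := mul_le_mul_of_nonneg_right hp2 (by positivity)
  have e4 : r * (t ^ 6 / (5040 * q) * r) ≤ 101 / 100 * (a ^ 6 / (5040 * q)) := by
    calc r * (t ^ 6 / (5040 * q) * r) = (r * r) * (t ^ 6 / (5040 * q)) := by ring
      _ ≤ 101 / 100 * (a ^ 6 / (5040 * q)) := by
          apply mul_le_mul hp3 _ (by positivity) (by norm_num)
          exact div_le_div_of_nonneg_right (pow_le_pow_left₀ ht0 hta 6) (by positivity)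
  have e5 : r * (t ^ 8 / (362880 * q ^ 3) * r) ≤ 101 / 100 * (a ^ 8 / (362880 * q ^ 3)) := by
    calc r * (t ^ 8 / (362880 * q ^ 3) * r) = (r * r) * (t ^ 8 / (362880 * q ^ 3)) := by ring
      _ ≤ 101 / 100 * (a ^ 8 / (362880 * q ^ 3)) := by
          apply mul_le_mul hp3 _ (by positivity) (by norm_num)
          exact div_le_div_of_nonneg_right (pow_le_pow_left₀ ht0 hta 8) (by positivity)
  have e6 : r * (301 / 302 * (W / 8)) ≤ W / 8 := by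
    calc r * (301 / 302 * (W / 8)) = (r * (301 / 302)) * (W / 8) := by ring
      _ ≤ 1 * (W / 8) := mul_le_mul_of_nonneg_right hp4 (by positivity)
      _ = W / 8 := one_mul _
  have e7 : r * E = g * (r * (6 / 10 * t ^ 2 / q) + r * (t ^ 2 / 3) + r * (b ^ 3 / 24 * s) +
      r * (t ^ 6 / (5040 * q) * r) + r * (t ^ 8 / (362880 * q ^ 3) * r)) +
      r * (301 / 302 * (W / 8)) := by
    rw [hE]
    ring
  have e8 : r * (6 / 10 * t ^ 2 / q) + r * (t ^ 2 / 3) + r * (b ^ 3 / 24 * s) +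
      r * (t ^ 6 / (5040 * q) * r) + r * (t ^ 8 / (362880 * q ^ 3) * r) < 7 / 8 * y := by
    refine lt_of_le_of_lt ?_ hN1
    calc _ ≤ 101 / 100 * (6 / 10 * a ^ 2 / q) + 101 / 100 * (a ^ 2 / 3) +
          101 / 100 * (b ^ 3 / 24) + 101 / 100 * (a ^ 6 / (5040 * q)) +
          101 / 100 * (a ^ 8 / (362880 * q ^ 3)) :=
          add_le_add (add_le_add (add_le_add (add_le_add e1 e2) e3) e4) e5
      _ = _ := by ring
  have e9 := mul_lt_mul_of_pos_left e8 hg0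
  have e10 : g * (7 / 8 * y) = 7 / 8 * (g * y) := by ring
  rw [e7]
  rw [e10] at e9
  generalize g * (r * (6 / 10 * t ^ 2 / q) + r * (t ^ 2 / 3) + r * (b ^ 3 / 24 * s) +
      r * (t ^ 6 / (5040 * q) * r) + r * (t ^ 8 / (362880 * q ^ 3) * r)) = G at e9 ⊢
  linarith

/-- Step (vi), real numbers. -/
private theorem finReal (q N y a b t g e j W μ m2 c2 c3 c4 c4' c5' c6 c7 c8 c9 Z : ℝ)
    (hq : 16 ≤ q) (hN : N = q - 1) (hy : 0 < y) (hb : 0 < b)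
    (hta : t ≤ a) (ht1 : 1 ≤ t) (htq : t ≤ q) (htg : t ≤ g) (heg : e ≤ g) (he0 : 0 ≤ e)
    (hjq : 1 + j ≤ q) (hj0 : 0 ≤ j) (hμ : 1 + μ + t ≤ q) (hμ0 : 0 ≤ μ) (hm0 : 0 ≤ m2)
    (hW : g * y ≤ W) (h5 : c5' = 0 ∨ (1 + m2) * y ≤ 2 * W)
    (b2 : c2 ≤ t ^ 2 / 2) (b3 : c3 ≤ t ^ 3 / 6) (b4 : c4 ≤ t ^ 4 / 24)
    (b4' : c4' ≤ t * b ^ 3 / 24) (b5' : c5' ≤ b ^ 5 / 120) (b6 : c6 ≤ t ^ 6 / 720)
    (b7 : c7 ≤ t ^ 7 / 5040) (b8 : c8 ≤ t ^ 8 / 40320) (b9 : c9 ≤ t ^ 9 / 362880)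
    (hN1 : 101 / 100 * (6 / 10 * a ^ 2 / q + a ^ 2 / 3 + b ^ 3 / 24 + a ^ 6 / (5040 * q) +
      a ^ 8 / (362880 * q ^ 3)) < 7 / 8 * y)
    (hN2 : 302 / 100 * (b ^ 5 / 120) ≤ q * y / 8)
    (hZ : Z ≤ c2 * e * q ^ 7 + c3 * (2 * N ^ 2 * q ^ 6) + c4 * e * q ^ 5 +
      q ^ 4 * N * (c5' * ((1 + m2) * (q ^ 2 + 1) + t * q ^ 2) +
        c4' * ((1 + μ) * (q ^ 2 + 1) + t * q ^ 2)) +
      c6 * e * q ^ 3 + c7 * (q ^ 2 * N * (q ^ 4 + 1 + j)) + c8 * e * q +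
      c9 * (N * (q ^ 4 + 1 + j))) :
    (q ^ 3 + 1) * Z < q ^ 10 * N * W := by
  have hq0 : 0 < q := by linarith
  have hN0 : 0 < N := by linarith
  have hNq : N ≤ q := by linarith
  have ht0 : 0 ≤ t := by linarith
  have hg0 : 0 < g := by linarith
  have hW0 : 0 < W := lt_of_lt_of_le (by positivity) hW
  have te := finE q N t g e c2 c4 c6 c8 hq hN ht0 htq heg he0 b2 b4 b6 b8
  have t3 := fin3 q N t g c3 hN0.le hNq ht0 htg b3
  have t5b := fin5b q N b t g μ c4' hq0 hN0.le hb.le ht0 htg hμ hμ0 b4'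
  have t5s := fin5s q N y b t g W m2 c5' hq hN0.le hy htg ht0 hm0 hW0.le hW h5 b5' hN2
  have t7 := fin79 6 2 q N t g j c7 (1 / 5040) hq0 hN0.le ht0 htg hj0 hjq (by norm_num)
    (by linarith) le_rfl
  have t9 := fin79 8 0 q N t g j c9 (1 / 362880) hq0 hN0.le ht0 htg hj0 hjq (by norm_num)
    (by linarith) (by norm_num)
  have r7 : t ^ 6 * (1 / 5040) / q ^ (3 - 2) = t ^ 6 / (5040 * q) := by
    have : 3 - 2 = 1 := rfl
    rw [this, pow_one]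
    field_simp
  have r9 : t ^ 8 * (1 / 362880) / q ^ (3 - 0) = t ^ 8 / (362880 * q ^ 3) := by
    have : 3 - 0 = 3 := rfl
    rw [this]
    field_simp
  rw [r7] at t7
  rw [r9, pow_zero, one_mul] at t9
  obtain ⟨E, hE⟩ : ∃ E, E = g * (6 / 10 * t ^ 2 / q) + g * (t ^ 2 / 3) +
      g * (b ^ 3 / 24 * (1 + 1 / q ^ 2)) + 301 / 302 * (W / 8) +
      g * (t ^ 6 / (5040 * q) * (1 + 1 / q ^ 3)) +
      g * (t ^ 8 / (362880 * q ^ 3) * (1 + 1 / q ^ 3)) := ⟨_, rfl⟩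
  have hfin := finLast q y a b t g W E hq hb hta ht0 hg0 hW0 hW hN1 hE
  have hZE : Z ≤ q ^ 7 * N * E := by
    have h1 : q ^ 7 * N * E = q ^ 7 * N * (g * (6 / 10 * t ^ 2 / q)) +
        q ^ 7 * N * (g * (t ^ 2 / 3)) +
        q ^ 7 * N * (g * (b ^ 3 / 24 * (1 + 1 / q ^ 2))) + q ^ 7 * N * (301 / 302 * (W / 8)) +
        q ^ 7 * N * (g * (t ^ 6 / (5040 * q) * (1 + 1 / q ^ 3))) +
        q ^ 7 * N * (g * (t ^ 8 / (362880 * q ^ 3) * (1 + 1 / q ^ 3))) := by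
      rw [hE]
      ring
    rw [h1]
    refine hZ.trans ?_
    rw [mul_add (q ^ 4 * N)]
    clear h1 hE hfin hZ hN1 hN2 b2 b3 b4 b4' b5' b6 b7 b8 b9 h5 hW
    generalize q ^ 7 * N * (g * (6 / 10 * t ^ 2 / q)) = A1 at *
    generalize q ^ 7 * N * (g * (t ^ 2 / 3)) = A2 at *
    generalize q ^ 7 * N * (g * (b ^ 3 / 24 * (1 + 1 / q ^ 2))) = A3 at *
    generalize q ^ 7 * N * (301 / 302 * (W / 8)) = A4 at *
    generalize q ^ 7 * N * (g * (t ^ 6 / (5040 * q) * (1 + 1 / q ^ 3))) = A5 at *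
    generalize q ^ 7 * N * (g * (t ^ 8 / (362880 * q ^ 3) * (1 + 1 / q ^ 3))) = A6 at *
    generalize c2 * e * q ^ 7 = B1 at *
    generalize c3 * (2 * N ^ 2 * q ^ 6) = B2 at *
    generalize c4 * e * q ^ 5 = B3 at *
    generalize q ^ 4 * N * (c5' * ((1 + m2) * (q ^ 2 + 1) + t * q ^ 2)) = B4 at *
    generalize q ^ 4 * N * (c4' * ((1 + μ) * (q ^ 2 + 1) + t * q ^ 2)) = B5 at *
    generalize c6 * e * q ^ 3 = B6 at *
    generalize c7 * (q ^ 2 * N * (q ^ 4 + 1 + j)) = B7 at *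
    generalize c8 * e * q = B8 at *
    generalize c9 * (N * (q ^ 4 + 1 + j)) = B9 at *
    linarith
  have h6 : q ^ 3 + 1 = q ^ 3 * (1 + 1 / q ^ 3) := by
    field_simp
  calc (q ^ 3 + 1) * Z ≤ (q ^ 3 + 1) * (q ^ 7 * N * E) :=
        mul_le_mul_of_nonneg_left hZE (by positivity)
    _ = q ^ 10 * N * ((1 + 1 / q ^ 3) * E) := by
        rw [h6]
        ring
    _ < q ^ 10 * N * W := mul_lt_mul_of_pos_left hfin (by positivity)

private theorem choose4 (t : ℕ) (b : ℝ) (hb : 0 < b) (htb : (t : ℝ) - 3 ≤ b) :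
    (((t - 1).choose 4 : ℕ) : ℝ) ≤ t * b ^ 3 / 24 := by
  rcases Nat.lt_or_ge t 5 with h | h
  · rw [Nat.choose_eq_zero_of_lt (by omega)]
    push_cast
    positivity
  · obtain ⟨s, rfl⟩ := Nat.exists_eq_add_of_le h
    have h1 : (5 + s - 1).descFactorial 4 = Nat.factorial 4 * (5 + s - 1).choose 4 :=
      Nat.descFactorial_eq_factorial_mul_choose _ _
    have h2 : (5 + s - 1).descFactorial 4 = (s + 4) * (s + 3) * (s + 2) * (s + 1) := by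
      have : 5 + s - 1 = s + 4 := by omega
      rw [this]
      simp only [Nat.descFactorial_succ, Nat.descFactorial_zero]
      have e1 : s + 4 - 0 = s + 4 := by omega
      have e2 : s + 4 - 1 = s + 3 := by omega
      have e3 : s + 4 - 2 = s + 2 := by omega
      have e4 : s + 4 - 3 = s + 1 := by omega
      rw [e1, e2, e3, e4]
      ring
    have h3 : Nat.factorial 4 = 24 := rfl
    rw [h2, h3] at h1
    have h4 : ((s : ℝ) + 4) * (s + 3) * (s + 2) * (s + 1) =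
        24 * ((5 + s - 1).choose 4 : ℕ) := by
      exact_mod_cast h1
    have hs : (0 : ℝ) ≤ s := Nat.cast_nonneg s
    have h5 : ((5 + s : ℕ) : ℝ) = s + 5 := by push_cast; ring
    rw [h5] at htb ⊢
    have h6 : ((s : ℝ) + 2) ^ 3 ≤ b ^ 3 := pow_le_pow_left₀ (by linarith) (by linarith) 3
    have h7 : ((s : ℝ) + 5) * (s + 2) ^ 3 ≤ (s + 5) * b ^ 3 :=
      mul_le_mul_of_nonneg_left h6 (by linarith)
    have h8 : ((s : ℝ) + 4) * (s + 3) * (s + 2) * (s + 1) ≤ (s + 5) * (s + 2) ^ 3 := by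
      have : ((s : ℝ) + 5) * (s + 2) ^ 3 - (s + 4) * (s + 3) * (s + 2) * (s + 1) =
          (s + 2) * (s ^ 2 + 5 * s + 8) := by ring
      have h9 : (0 : ℝ) ≤ (s + 2) * (s ^ 2 + 5 * s + 8) := by positivity
      linarith
    linarith

private theorem choose5 (t : ℕ) (b : ℝ) (hb : 0 < b) (htb : (t : ℝ) - 3 ≤ b) :
    (((t - 1).choose 5 : ℕ) : ℝ) ≤ b ^ 5 / 120 := by
  rcases Nat.lt_or_ge t 6 with h | h
  · rw [Nat.choose_eq_zero_of_lt (by omega)]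
    push_cast
    positivity
  · obtain ⟨s, rfl⟩ := Nat.exists_eq_add_of_le h
    have h1 : (6 + s - 1).descFactorial 5 = Nat.factorial 5 * (6 + s - 1).choose 5 :=
      Nat.descFactorial_eq_factorial_mul_choose _ _
    have h2 : (6 + s - 1).descFactorial 5 = (s + 5) * (s + 4) * (s + 3) * (s + 2) * (s + 1) := by
      have : 6 + s - 1 = s + 5 := by omega
      rw [this]
      simp only [Nat.descFactorial_succ, Nat.descFactorial_zero]
      have e1 : s + 5 - 0 = s + 5 := by omega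
      have e2 : s + 5 - 1 = s + 4 := by omega
      have e3 : s + 5 - 2 = s + 3 := by omega
      have e4 : s + 5 - 3 = s + 2 := by omega
      have e5 : s + 5 - 4 = s + 1 := by omega
      rw [e1, e2, e3, e4, e5]
      ring
    have h3 : Nat.factorial 5 = 120 := rfl
    rw [h2, h3] at h1
    have h4 : ((s : ℝ) + 5) * (s + 4) * (s + 3) * (s + 2) * (s + 1) =
        120 * ((6 + s - 1).choose 5 : ℕ) := by
      exact_mod_cast h1
    have hs : (0 : ℝ) ≤ s := Nat.cast_nonneg s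
    have h5 : ((6 + s : ℕ) : ℝ) = s + 6 := by push_cast; ring
    rw [h5] at htb
    have h6 : ((s : ℝ) + 3) ^ 5 ≤ b ^ 5 := pow_le_pow_left₀ (by linarith) (by linarith) 5
    have h8 : ((s : ℝ) + 5) * (s + 4) * (s + 3) * (s + 2) * (s + 1) ≤ (s + 3) ^ 5 := by
      have : ((s : ℝ) + 3) ^ 5 - (s + 5) * (s + 4) * (s + 3) * (s + 2) * (s + 1) =
          (s + 3) * (5 * s ^ 2 + 30 * s + 41) := by ring
      have h9 : (0 : ℝ) ≤ (s + 3) * (5 * s ^ 2 + 30 * s + 41) := by positivity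
      linarith
    linarith

/-- Step (i). -/
private theorem stepI (q x t j e : ℝ) (hq : 16 ≤ q) (hj : j + e + 1 = q) (he : 1 ≤ e)
    (ht : 1 ≤ t) (htj : t ≤ j + 1) (hx : 6 * x / q ^ 2 + 3 / q ^ 3 ≤ 1 / 10)
    (hl : q ^ 3 * (t + 2 + 2 * e) + 2 * (1 + j) ≤ 3 * (x * q ^ 3 + 1) + 2 * t * (1 + j)) :
    t + 2 + 2 * e ≤ 3 * x + 1 / 10 := by
  have hq0 : 0 < q := by linarith
  have hq3 : 0 < q ^ 3 := by positivity
  have h1 : (t - 1) * (1 + j) ≤ (t - 1) * q :=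
    mul_le_mul_of_nonneg_left (by linarith) (by linarith)
  have h2 : q ^ 3 * (t + 2 + 2 * e) ≤ 3 * x * q ^ 3 + 3 + 2 * ((t - 1) * q) := by linarith
  have h3 : (t - 1) * q ≤ q * q := mul_le_mul_of_nonneg_right (by linarith) hq0.le
  have h4 : 3 + 2 * (q * q) ≤ q ^ 3 := by
    have e1 : 16 * (q * q) ≤ q ^ 3 := by
      calc 16 * (q * q) ≤ q * (q * q) := mul_le_mul_of_nonneg_right hq (by positivity)
        _ = q ^ 3 := by ring
    have e2 : (16 : ℝ) * 16 ≤ q * q := mul_le_mul hq hq (by norm_num) (by linarith)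
    linarith
  have h5 : q ^ 3 * (t + 2 + 2 * e) ≤ q ^ 3 * (3 * x + 1) := by
    linarith
  have h6 : t + 2 + 2 * e ≤ 3 * x + 1 := le_of_mul_le_mul_left h5 hq3
  have h7 : (t - 1) * q ≤ 3 * x * q := mul_le_mul_of_nonneg_right (by linarith) hq0.le
  have h8 : q ^ 3 * (t + 2 + 2 * e) ≤ q ^ 3 * (3 * x + (6 * x / q ^ 2 + 3 / q ^ 3)) := by
    have : q ^ 3 * (3 * x + (6 * x / q ^ 2 + 3 / q ^ 3)) = 3 * x * q ^ 3 + 3 + 6 * x * q := by
      field_simp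
      ring
    rw [this]
    linarith
  have h9 := le_of_mul_le_mul_left h8 hq3
  linarith

/-- Step (iii). -/
private theorem stepIII (q N t j e μ D S L W : ℝ) (hj : j + e + 1 = q) (he : 1 ≤ e)
    (hN : N = q - 1) (ht : 1 ≤ t) (htD : t ≤ D + 1) (hμD : μ + D = j) (hμ0 : 0 ≤ μ)
    (hq0 : 0 < q) (hN0 : 0 ≤ N)
    (hS : S ≤ μ * (μ + 1) + D * (D + 3 - t)) (hL : L ≤ q ^ 3 * S + t * (j * (1 + j)))
    (hW : W = j * e + D * (μ - 1) - (t - 1)) :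
    q ^ 3 * N * W ≤ j * (q ^ 4 + 1 + j) * (q - t) - N * L := by
  have h1 : N * L ≤ N * (q ^ 3 * (μ * (μ + 1) + D * (D + 3 - t)) + t * (j * (1 + j))) := by
    apply mul_le_mul_of_nonneg_left _ hN0
    have := mul_le_mul_of_nonneg_left hS (pow_nonneg hq0.le 3)
    linarith
  have h2 : j * (q ^ 4 + 1 + j) * (q - t) -
      N * (q ^ 3 * (μ * (μ + 1) + D * (D + 3 - t)) + t * (j * (1 + j))) - q ^ 3 * N * W =
      q ^ 3 * N * ((D - t + 1) * μ) + (t - 1) * q * (q ^ 2 * N - j * (q ^ 2 + 1 + j)) := by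
    rw [hW, hN, ← hj, ← hμD]
    ring
  have h3 : 0 ≤ q ^ 3 * N * ((D - t + 1) * μ) := by
    have : 0 ≤ D - t + 1 := by linarith
    positivity
  have h4 : 0 ≤ q ^ 2 * N - j * (q ^ 2 + 1 + j) := by
    have h5 : N = j + e := by linarith
    have h6 : j * (1 + j) ≤ q * q := by
      apply mul_le_mul (by linarith) (by linarith) (by linarith) (by linarith)
    have h7 : q ^ 2 * N - j * (q ^ 2 + 1 + j) = q * q * e - j * (1 + j) := by
      rw [h5]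
      ring
    have h8 : q * q * 1 ≤ q * q * e := mul_le_mul_of_nonneg_left he (by positivity)
    linarith
  have h5 : 0 ≤ (t - 1) * q * (q ^ 2 * N - j * (q ^ 2 + 1 + j)) :=
    mul_nonneg (mul_nonneg (by linarith) hq0.le) h4
  linarith

/-- Step (iv). -/
private theorem stepIV (t j e μ D g W y : ℝ) (he : 1 ≤ e) (ht : 1 ≤ t) (htD : t ≤ D + 1)
    (hμD : μ + D = j) (htμ : t ≤ μ) (hy : y ≤ j - t) (hg : g = e + t - 1)
    (hW : W = j * e + D * (μ - 1) - (t - 1)) : g * y ≤ W := by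
  have h1 : 0 ≤ (D - t + 1) * (μ - t) := mul_nonneg (by linarith) (by linarith)
  have h2 : g * y ≤ g * (j - t) := mul_le_mul_of_nonneg_left hy (by linarith)
  have h3 : W - g * (j - t) = (D - t + 1) * (μ - t) + ((e - 1) * t + 1) := by
    rw [hW, hg, ← hμD]
    ring
  have h4 : 0 ≤ (e - 1) * t := mul_nonneg (by linarith) (by linarith)
  linarith

/-- Step (v). -/
private theorem stepV (t j e μ D m2 W y : ℝ) (he : 1 ≤ e) (ht : 1 ≤ t)
    (hμD : μ + D = j) (hj0 : 0 ≤ j) (hμ1 : 1 ≤ μ) (hD1 : 1 ≤ D) (hm : m2 = min μ D)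
    (hy : y ≤ j - t) (hW : W = j * e + D * (μ - 1) - (t - 1)) : (1 + m2) * y ≤ 2 * W := by
  have hm1 : 1 ≤ m2 := by
    rw [hm]
    exact le_min hμ1 hD1
  have h1 : (m2 - 1) * j ≤ 2 * (D * (μ - 1)) := by
    rcases le_total μ D with h | h
    · rw [min_eq_left h] at hm
      rw [hm]
      have : (μ - 1) * j ≤ (μ - 1) * (2 * D) :=
        mul_le_mul_of_nonneg_left (by linarith) (by linarith)
      linarith
    · rw [min_eq_right h] at hm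
      rw [hm]
      have : D * j ≤ D * (2 * μ) := mul_le_mul_of_nonneg_left (by linarith) (by linarith)
      linarith
  have h2 : j * 1 ≤ j * e := mul_le_mul_of_nonneg_left he hj0
  have h3 : (1 + m2) * y ≤ (1 + m2) * (j - t) := mul_le_mul_of_nonneg_left hy (by linarith)
  have h4 : 2 * t ≤ (1 + m2) * t := mul_le_mul_of_nonneg_right (by linarith) (by linarith)
  rw [hW]
  linarith

/-- FIN (the final inequality). -/
theorem hFIN (hFNB : StFNB) : StFIN := by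
  intro h j e t μ D q S L Z hh hq hjq he ht hμD htD hjt hS hL hZ hl
  obtain ⟨x, hx⟩ : ∃ x : ℝ, x = (5 / 4 : ℝ) ^ h := ⟨_, rfl⟩
  obtain ⟨Q, hQ⟩ : ∃ Q : ℝ, Q = (q : ℝ) := ⟨_, rfl⟩
  have hQ2 : Q = (2 : ℝ) ^ h := by
    rw [hQ, hq]
    push_cast
    rfl
  obtain ⟨f1, f2, f3, f4, f5, f6⟩ := hFNB h hh x Q (3 * x - 39 / 10) (3 * x - 69 / 10) hx hQ2 rfl rfl
  have hq16 : 16 ≤ Q := by
    rw [hQ2]
    calc (16 : ℝ) = 2 ^ 4 := by norm_num
      _ ≤ 2 ^ h := pow_le_pow_right₀ (by norm_num) hh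
  have h10 : (10 : ℝ) ^ h = x * Q ^ 3 := by
    rw [hx, hQ2, ← pow_mul, mul_comm h 3, pow_mul, ← mul_pow]
    norm_num
  -- casts
  have cj : (j : ℝ) + e + 1 = Q := by
    rw [hQ]
    exact_mod_cast hjq
  have ce : (1 : ℝ) ≤ e := by exact_mod_cast he
  have ct : (1 : ℝ) ≤ t := by exact_mod_cast ht
  have cμD : (μ : ℝ) + D = j := by exact_mod_cast hμD
  have ctD : (t : ℝ) ≤ D + 1 := by exact_mod_cast htD
  have cjt : (j : ℝ) ≤ t * μ := by exact_mod_cast hjt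
  have cS : (S : ℝ) ≤ μ * (μ + 1) + D * (D + 3 - t) := by exact_mod_cast hS
  have cL : (L : ℝ) ≤ Q ^ 3 * S + t * (j * (1 + j)) := by
    rw [hQ]
    exact_mod_cast hL
  have cl : Q ^ 3 * ((t : ℝ) + 2 + 2 * e) + 2 * (1 + j) ≤
      3 * (x * Q ^ 3 + 1) + 2 * t * (1 + j) := by
    rw [← h10, hQ]
    exact_mod_cast hl
  obtain ⟨m2, hm2⟩ : ∃ m : ℕ, m = min μ D := ⟨_, rfl⟩
  have cZ : (Z : ℝ) ≤ (t.choose 2 : ℕ) * e * Q ^ 7 +
      (t.choose 3 : ℕ) * (2 * (Q - 1) ^ 2 * Q ^ 6) + (t.choose 4 : ℕ) * e * Q ^ 5 +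
      Q ^ 4 * (Q - 1) * (((t - 1).choose 5 : ℕ) * ((1 + m2) * (Q ^ 2 + 1) + t * Q ^ 2) +
        ((t - 1).choose 4 : ℕ) * ((1 + μ) * (Q ^ 2 + 1) + t * Q ^ 2)) +
      (t.choose 6 : ℕ) * e * Q ^ 3 + (t.choose 7 : ℕ) * (Q ^ 2 * (Q - 1) * (Q ^ 4 + 1 + j)) +
      (t.choose 8 : ℕ) * e * Q + (t.choose 9 : ℕ) * ((Q - 1) * (Q ^ 4 + 1 + j)) := by
    rw [← hm2] at hZ
    rw [hQ]
    exact_mod_cast hZ
  have cm2 : (m2 : ℝ) = min (μ : ℝ) D := by
    rw [hm2]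
    exact Nat.cast_min μ D
  have cμ0 : (0 : ℝ) ≤ μ := Nat.cast_nonneg μ
  have cD0 : (0 : ℝ) ≤ D := Nat.cast_nonneg D
  have cj0 : (0 : ℝ) ≤ j := Nat.cast_nonneg j
  -- steps
  have s1 := stepI Q x t j e hq16 cj ce ct (by linarith) f3 cl
  obtain ⟨y, hy⟩ : ∃ y, y = Q - 3 * x := ⟨_, rfl⟩
  rw [← hy] at f4 f5 f6
  have hy0 : 0 < y := by linarith
  have hyj : y ≤ j - t := by linarith
  have hta : (t : ℝ) ≤ 3 * x - 39 / 10 := by linarith
  have htμ : (t : ℝ) ≤ μ := by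
    have h1 : (t : ℝ) * (t - 1) ≤ (3 * x - 39 / 10) * (3 * x - 39 / 10 - 1) :=
      mul_le_mul hta (by linarith) (by linarith) (by linarith)
    have h2 : (t : ℝ) * t ≤ t * μ := by linarith
    exact le_of_mul_le_mul_left h2 (by linarith)
  obtain ⟨W, hW⟩ : ∃ W : ℝ, W = j * e + D * (μ - 1) - (t - 1) := ⟨_, rfl⟩
  have s3 := stepIII Q (Q - 1) t j e μ D S L W cj ce rfl ct ctD cμD cμ0 (by linarith)
    (by linarith) cS cL hW
  have s4 := stepIV t j e μ D (e + t - 1) W y ce ct ctD cμD htμ hyj rfl hW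
  have s5 : (((t - 1).choose 5 : ℕ) : ℝ) = 0 ∨ (1 + (m2 : ℝ)) * y ≤ 2 * W := by
    rcases Nat.lt_or_ge t 6 with h6 | h6
    · left
      rw [Nat.choose_eq_zero_of_lt (by omega)]
      exact Nat.cast_zero
    · right
      have c6 : (6 : ℝ) ≤ t := by exact_mod_cast h6
      exact stepV t j e μ D m2 W y ce ct cμD cj0 (by linarith) (by linarith) cm2 hyj hW
  have s6 := finReal Q (Q - 1) y (3 * x - 39 / 10) (3 * x - 69 / 10) t (e + t - 1) e j W μ m2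
    (t.choose 2 : ℕ) (t.choose 3 : ℕ) (t.choose 4 : ℕ) ((t - 1).choose 4 : ℕ)
    ((t - 1).choose 5 : ℕ) (t.choose 6 : ℕ) (t.choose 7 : ℕ) (t.choose 8 : ℕ) (t.choose 9 : ℕ) Z
    hq16 rfl hy0 f1 hta ct (by linarith) (by linarith) (by linarith) (by linarith)
    (by linarith) cj0 (by linarith) cμ0 (Nat.cast_nonneg m2) s4 s5
    (Nat.choose_le_pow_div 2 t) (Nat.choose_le_pow_div 3 t) (Nat.choose_le_pow_div 4 t)
    (choose4 t _ f1 (by linarith)) (choose5 t _ f1 (by linarith))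
    (Nat.choose_le_pow_div 6 t) (Nat.choose_le_pow_div 7 t) (Nat.choose_le_pow_div 8 t)
    (Nat.choose_le_pow_div 9 t) f5 f6 cZ
  have s7 : Q ^ 7 * (Q ^ 3 * (Q - 1) * W) ≤
      Q ^ 7 * (j * (Q ^ 4 + 1 + j) * (Q - t) - (Q - 1) * L) :=
    mul_le_mul_of_nonneg_left s3 (by positivity)
  have s8 : Q ^ 7 * (Q - 1) * L + (Q ^ 3 + 1) * Z < Q ^ 7 * (j * (Q ^ 4 + 1 + j) * (Q - t)) := by
    linarith
  rw [hQ] at s8
  exact_mod_cast s8

end Pool.Agent.Helper41.HE
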